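import Pool.Agent.Lib.MP_2d002d_gt.PM.Interfaces

set_option autoImplicit false

/-!
Module QC: the midpoint inequality for all even log-concave products and all bodies.
-/

open MeasureTheory Set Filter Topology
open scoped ENNReal Pointwise

namespace Pool.Agent.Lib.MP_2d002d_gt.PM.H36

open Pool.Agent.Lib.MP_2d002d_gt.H29 (ELC Body MK)

lemma closure_ae {n : ℕ} {K : Set (Fin n → ℝ)} (hK : Body K) :
    (closure K : Set (Fin n → ℝ)) =ᵐ[volume] K := by
  have h0 : volume (frontier K) = 0 := hK.convex.addHaar_frontier volume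
  refine (ae_eq_of_subset_of_measure_ge subset_closure ?_ hK.isOpen.measurableSet.nullMeasurableSet
    ?_).symm
  · calc volume (closure K) ≤ volume (K ∪ frontier K) := by
          refine measure_mono ?_
          rw [hK.isOpen.frontier_eq]
          intro x hx
          by_cases h : x ∈ K
          · exact Or.inl h
          · exact Or.inr ⟨hx, h⟩
      _ ≤ volume K + volume (frontier K) := measure_union_le _ _
      _ = volume K := by rw [h0, add_zero]
  · exact hK.bdd.closure.measure_lt_top.ne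

lemma MK_closure {n : ℕ} (f : Fin n → ℝ → ℝ) {K : Set (Fin n → ℝ)} (hK : Body K) (ℓ : ℝ) :
    MK f (closure K) ℓ = MK f K ℓ :=
  setLIntegral_congr (closure_ae hK)

lemma MK_ne_top {n : ℕ} {f : Fin n → ℝ → ℝ} (hf : ∀ i, ELC (f i)) {K : Set (Fin n → ℝ)}
    (hK : Bornology.IsBounded K) (ℓ : ℝ) : MK f K ℓ ≠ ∞ := by
  unfold MK
  refine ne_top_of_le_ne_top (b := ENNReal.ofReal (∏ i, f i 0) * volume K) ?_ ?_
  · exact ENNReal.mul_ne_top ENNReal.ofReal_ne_top hK.measure_lt_top.ne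
  · rw [← setLIntegral_const]
    refine lintegral_mono (fun x => ENNReal.ofReal_le_ofReal ?_)
    exact Finset.prod_le_prod (fun i _ => (hf i).nonneg _) (fun i _ => (hf i).le_zero _)

/-- the truncated, normalised density -/
noncomputable def tr (f : ℝ → ℝ) (R : ℝ) (x : ℝ) : ℝ := if |x| ≤ R then f x / f 0 else 0

lemma tr_elc {f : ℝ → ℝ} (hf : ELC f) (h0 : 0 < f 0) (R : ℝ) : ELC (tr f R) where
  nonneg x := by
    unfold tr
    split_ifs
    · exact div_nonneg (hf.nonneg _) h0.le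
    · exact le_rfl
  even x := by unfold tr; rw [abs_neg, hf.even]
  lc x y t ht0 ht1 := by
    have hnn : ∀ z, 0 ≤ tr f R z := fun z => by
      unfold tr
      split_ifs
      · exact div_nonneg (hf.nonneg _) h0.le
      · exact le_rfl
    rcases eq_or_lt_of_le ht0 with rfl | ht
    · simp
    rcases eq_or_lt_of_le ht1 with rfl | ht'
    · simp
    by_cases hx : |x| ≤ R
    · by_cases hy : |y| ≤ R
      · have hxy : |t * x + (1 - t) * y| ≤ R := by
          rw [abs_le] at hx hy ⊢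
          constructor <;> nlinarith
        unfold tr
        rw [if_pos hx, if_pos hy, if_pos hxy, Real.div_rpow (hf.nonneg _) h0.le,
          Real.div_rpow (hf.nonneg _) h0.le, div_mul_div_comm, ← Real.rpow_add h0]
        have e : t + (1 - t) = 1 := by ring
        rw [e, Real.rpow_one]
        exact div_le_div_of_nonneg_right (hf.lc x y t ht0 ht1) h0.le
      · have : tr f R y = 0 := if_neg hy
        rw [this, Real.zero_rpow (by linarith), mul_zero]
        exact hnn _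
    · have : tr f R x = 0 := if_neg hx
      rw [this, Real.zero_rpow ht.ne', zero_mul]
      exact hnn _

lemma tr_zero {f : ℝ → ℝ} (h0 : 0 < f 0) {R : ℝ} (hR : 0 ≤ R) : tr f R 0 = 1 := by
  unfold tr
  rw [if_pos (by simpa using hR), div_self h0.ne']

lemma MK_tr {n : ℕ} {f : Fin n → ℝ → ℝ} (hf : ∀ i, ELC (f i)) (h0 : ∀ i, 0 < f i 0) {R : ℝ}
    {K : Set (Fin n → ℝ)} (hKm : MeasurableSet K) {ℓ : ℝ} (hK : ∀ x ∈ K, ∀ i, |x i / ℓ| ≤ R) :
    MK f K ℓ = ENNReal.ofReal (∏ i, f i 0) * MK (fun i => tr (f i) R) K ℓ := by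
  unfold MK
  rw [← lintegral_const_mul' _ _ ENNReal.ofReal_ne_top]
  refine setLIntegral_congr_fun hKm (fun x hx => ?_)
  rw [← ENNReal.ofReal_mul (Finset.prod_nonneg fun i _ => (hf i).nonneg _),
    ← Finset.prod_mul_distrib]
  congr 1
  refine Finset.prod_congr rfl (fun i _ => ?_)
  have h : tr (f i) R (x i / ℓ) = f i (x i / ℓ) / f i 0 := if_pos (hK x hx i)
  show f i (x i / ℓ) = f i 0 * tr (f i) R (x i / ℓ)
  rw [h, mul_div_cancel₀ _ (h0 i).ne']

lemma seg_zero {n : ℕ} {K₀ K₁ : Set (Fin n → ℝ)} (h : K₁.Nonempty) :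
    (1 - (0 : ℝ)) • K₀ + (0 : ℝ) • K₁ = K₀ := by
  rw [sub_zero, one_smul, zero_smul_set h, add_zero]

lemma seg_one {n : ℕ} {K₀ K₁ : Set (Fin n → ℝ)} (h : K₀.Nonempty) :
    (1 - (1 : ℝ)) • K₀ + (1 : ℝ) • K₁ = K₁ := by
  rw [sub_self, one_smul, zero_smul_set h, zero_add]

lemma seg_half {n : ℕ} {K₀ K₁ : Set (Fin n → ℝ)} :
    (1 - (1 / 2 : ℝ)) • closure K₀ + (1 / 2 : ℝ) • closure K₁ ⊆
      closure ((1 / 2 : ℝ) • (K₀ + K₁)) := by
  rintro _ ⟨_, ⟨a, ha, rfl⟩, _, ⟨b, hb, rfl⟩, rfl⟩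
  have h1 : a + b ∈ closure (K₀ + K₁) := by
    have := map_mem_closure₂ (f := fun x y : Fin n → ℝ => x + y) continuous_add ha hb
      (u := K₀ + K₁) (fun x hx y hy => Set.add_mem_add hx hy)
    exact this
  have h2 : (1 / 2 : ℝ) • (a + b) ∈ closure ((1 / 2 : ℝ) • (K₀ + K₁)) := by
    refine map_mem_closure (f := fun x : Fin n → ℝ => (1 / 2 : ℝ) • x) (by fun_prop) h1 ?_
    intro x hx
    exact Set.smul_mem_smul_set hx
  convert h2 using 1
  simp only [smul_add]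
  norm_num

/-- the normalised case -/
theorem qc_norm (hSM : SM_S) (hU : APXU_S) (hS : APXS_S) (hL : LIM_S) (n : ℕ)
    (g : Fin n → ℝ → ℝ) (hg : ∀ i, ELC (g i)) (h1 : ∀ i, g i 0 = 1) (R : ℝ) (hR : 0 < R)
    (hgR : ∀ i x, R < |x| → g i x = 0) (K₀ K₁ : Set (Fin n → ℝ)) (hK₀ : Body K₀) (hK₁ : Body K₁)
    (r₀ r₁ : ℝ) (hr₀ : 0 < r₀) (hr₁ : 0 < r₁) :
    MK g K₀ r₀ * MK g K₁ r₁ ≤ MK g ((1 / 2 : ℝ) • (K₀ + K₁)) ((r₀ + r₁) / 2) ^ 2 := by
  have hc : ∀ {K : Set (Fin n → ℝ)}, Body K → IsCompact (closure K) ∧ Convex ℝ (closure K) ∧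
      (∀ x ∈ closure K, -x ∈ closure K) ∧ (closure K).Nonempty := by
    intro K hK
    refine ⟨hK.bdd.isCompact_closure, hK.convex.closure, ?_, hK.nonempty.closure⟩
    intro x hx
    exact map_mem_closure (f := fun x : Fin n → ℝ => -x) continuous_neg hx (fun y hy => hK.symm y hy)
  obtain ⟨c0, v0, s0, ne0⟩ := hc hK₀
  obtain ⟨c1, v1, s1, ne1⟩ := hc hK₁
  obtain ⟨U, hUP, hUT⟩ := hU n (closure K₀) (closure K₁) c0 v0 s0 ne0 c1 v1 s1 ne1
  choose S hSP hSb hST using fun i => hS (g i) R (hg i) (h1 i) hR (hgR i)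
  have hlim : ∀ s : ℝ, 0 ≤ s → s ≤ 1 → Tendsto
      (fun N => HE (U N) (fun i => S i N) r₀ (r₁ - r₀) ∅ (s, 1)) atTop
      (𝓝 (MK g ((1 - s) • closure K₀ + s • closure K₁) (r₀ + (r₁ - r₀) * s))) := by
    intro s hs0 hs1
    refine hL n g R (fun N i => S i N) U _ r₀ (r₁ - r₀) s hg (fun N i => hSP i N)
      (fun N i z hz => hSb i N z hz) hST hUP ?_ (fun x => hUT s hs0 hs1 x) ?_
    · exact ((c0.smul _).add (c1.smul _)).measurableSet
    · rcases le_total s (1 / 2) with h | h <;> nlinarith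
  have hfin : ∀ s : ℝ, MK g ((1 - s) • closure K₀ + s • closure K₁) (r₀ + (r₁ - r₀) * s) ≠ ∞ :=
    fun s => MK_ne_top hg ((c0.smul _).add (c1.smul _)).isBounded _
  have key := le_of_tendsto_of_tendsto'
    (ENNReal.Tendsto.mul (hlim 0 le_rfl zero_le_one) (Or.inr (hfin 1)) (hlim 1 zero_le_one le_rfl)
      (Or.inr (hfin 0)))
    (ENNReal.Tendsto.pow (n := 2) (hlim (1 / 2) (by norm_num) (by norm_num)))
    (fun N => by
      have := hSM n (U N) (fun i => S i N) r₀ (r₁ - r₀) (hUP N) (fun i => hSP i N) 0 1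
        (by linarith) (by linarith)
      have e : ((0 : ℝ) + 1) / 2 = 1 / 2 := by norm_num
      rw [e] at this
      exact this)
  rw [seg_zero ne1, seg_one ne0, MK_closure g hK₀, MK_closure g hK₁] at key
  have e0 : r₀ + (r₁ - r₀) * 0 = r₀ := by ring
  have e1 : r₀ + (r₁ - r₀) * 1 = r₁ := by ring
  have e2 : r₀ + (r₁ - r₀) * (1 / 2) = (r₀ + r₁) / 2 := by ring
  rw [e0, e1, e2] at key
  refine key.trans (pow_le_pow_left' ?_ 2)
  have hB : Body ((1 / 2 : ℝ) • (K₀ + K₁)) := (hK₀.add hK₁).smul (by norm_num)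
  rw [← MK_closure g hB]
  exact lintegral_mono_set seg_half

theorem qc (hSM : SM_S) (hU : APXU_S) (hS : APXS_S) (hL : LIM_S) : QC_S := by
  intro n f hf K₀ K₁ hK₀ hK₁ r₀ r₁ hr₀ hr₁
  by_cases hz : ∃ i, f i 0 = 0
  · obtain ⟨i, hi⟩ := hz
    have : MK f K₀ r₀ = 0 := by
      unfold MK
      have h : ∀ x : Fin n → ℝ, ENNReal.ofReal (∏ i, f i (x i / r₀)) = 0 := by
        intro x
        have h2 : f i (x i / r₀) = 0 :=
          le_antisymm (((hf i).le_zero _).trans hi.le) ((hf i).nonneg _)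
        rw [Finset.prod_eq_zero (Finset.mem_univ i) h2, ENNReal.ofReal_zero]
      simp [h]
    rw [this, zero_mul]
    exact zero_le
  · push Not at hz
    have h0 : ∀ i, 0 < f i 0 := fun i => lt_of_le_of_ne ((hf i).nonneg _) (hz i).symm
    have hB : Body ((1 / 2 : ℝ) • (K₀ + K₁)) := (hK₀.add hK₁).smul (by norm_num)
    have hex : ∀ {K : Set (Fin n → ℝ)}, Body K → ∀ {r : ℝ}, 0 < r →
        ∃ R : ℝ, 0 < R ∧ ∀ R', R ≤ R' → ∀ x ∈ K, ∀ i, |x i / r| ≤ R' := by
      intro K hK r hr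
      obtain ⟨C, hC⟩ := hK.bdd.subset_closedBall 0
      refine ⟨(|C| + 1) / r, by positivity, fun R' hR' x hx i => ?_⟩
      have h1 := hC hx
      rw [Metric.mem_closedBall, dist_zero_right] at h1
      have h2 : |x i| ≤ |C| + 1 := by
        calc |x i| ≤ ‖x‖ := norm_le_pi_norm x i
          _ ≤ C := h1
          _ ≤ |C| + 1 := by linarith [le_abs_self C]
      rw [abs_div, abs_of_pos hr]
      exact (div_le_div_of_nonneg_right h2 hr.le).trans hR'
    obtain ⟨R0, hR0, b0⟩ := hex hK₀ hr₀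
    obtain ⟨R1, hR1, b1⟩ := hex hK₁ hr₁
    obtain ⟨R2, hR2, b2⟩ := hex hB (show 0 < (r₀ + r₁) / 2 by linarith)
    set R := max R0 (max R1 R2)
    have hR : 0 < R := lt_of_lt_of_le hR0 (le_max_left _ _)
    rw [MK_tr hf h0 hK₀.isOpen.measurableSet (b0 R (le_max_left _ _)),
      MK_tr hf h0 hK₁.isOpen.measurableSet (b1 R ((le_max_left _ _).trans (le_max_right _ _))),
      MK_tr hf h0 hB.isOpen.measurableSet (b2 R ((le_max_right _ _).trans (le_max_right _ _)))]
    have key := qc_norm hSM hU hS hL n (fun i => tr (f i) R) (fun i => tr_elc (hf i) (h0 i) R)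
      (fun i => tr_zero (h0 i) hR.le) R hR (fun i x hx => if_neg (not_le.2 hx)) K₀ K₁ hK₀ hK₁
      r₀ r₁ hr₀ hr₁
    calc _ = ENNReal.ofReal (∏ i, f i 0) ^ 2 * (MK (fun i => tr (f i) R) K₀ r₀ *
          MK (fun i => tr (f i) R) K₁ r₁) := by ring
      _ ≤ ENNReal.ofReal (∏ i, f i 0) ^ 2 * _ := mul_le_mul' le_rfl key
      _ = _ := by ring

end Pool.Agent.Lib.MP_2d002d_gt.PM.H36
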